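import Pool.Agent.X310.GdC

/-!
# `MP_b23d8d_ag`: the Gross–Deligne conjecture, cyclic fields and Hodge classes

The conjecture for all abelian fields of multiplication follows from the case of fields `F` cyclic
over `ℚ`, and even from the following statement on Hodge classes: if `F` is cyclic over `ℚ` and the
Hodge structure `H` is of type `(k, k)` then all periods `P_σ(H)` are `(2πi)^k` up to algebraic
numbers.
-/

set_option autoImplicit false

namespace Pool.Agent.Results.MP_b23d8d_ag.CyclicFieldsHodgeClasses

open Pool.Agent.X310.Gd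

theorem result (d : ℕ) [NeZero d] (V : Type) [AddCommGroup V] [Module ℚ V]
    (Γ : GammaClasses d V) (S : System Γ) :
    -- cyclic fields suffice
    ((∀ U m p P, S.Adm U m p P → Γ.Holds p P) ↔
      ∀ U m p P, S.Adm U m p P → IsCyc U → Γ.Holds p P) ∧
    -- Hodge classes with multiplication by cyclic fields suffice
    ((∀ U m p P, S.Adm U m p P → Γ.Holds p P) ↔
      ∀ U m p P, S.Adm U m p P → IsCyc U → ∀ k : ℤ, (∀ u, p u = k) →
        ∀ u, P u = (k : ℚ) • Γ.ϖ) :=
  ⟨⟨fun h U m p P hA _ => h U m p P hA, fun h => all_of_cyclic S h⟩,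
    ⟨fun h U m p P hA _ _ hk u => const_of_holds S hA (h U m p P hA) hk u,
      fun h => all_of_cyclic S (cyclic_of_const S h)⟩⟩

end Pool.Agent.Results.MP_b23d8d_ag.CyclicFieldsHodgeClasses
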