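import Pool.Agent.X120.OR.Perf
import Pool.Agent.X120.OR.Act
import Pool.Agent.X120.OR.One

/-!
# Hodge structures with complex multiplication in the cohomology of powers of surfaces with `p_g = 2`

The Gross–Deligne period conjecture is about the Hodge substructures with complex multiplication in the cohomology of algebraic varieties. Let `X_t` be the fibres over `x = b^(-t)` of a family of surfaces with `p_g = 2` and a transcendental part `V` of rank `n` with big orthogonal monodromy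
(the group of the period matrix `L(log 1/x) P(x)` contains the orthogonal group of the form), or more generally Hodge structures of even weight whose upper part has dimension two.

**Theorem.** For all but `K log N` of the first `N` fibres over the points `b^(-t)` all Hodge substructures with complex multiplication in all tensor powers `V^{⊗ r}` are killed by the orthogonal Lie algebra `𝔰𝔬(A)`.

So by the first fundamental theorem (Weyl) for `r < n` they consist of combinations of products of copies of the class `A⁻¹` of the form. For surfaces this class is algebraic, so all Hodge structures with complex multiplication in the cohomology of the powers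
`X_t^r`, `r < n`, are of Tate type and consist of algebraic classes, for which the period conjecture of Gross and Deligne is true, and no other Hodge structures are admissible for `X_t^r`.

Proof. By the counting theorem (`Pool.Agent.X120.OR`) every rational Lie algebra which contains the coordinates of the Hodge operator contains `𝔰𝔬(A)`. The matrices which act on `W` as a coordinate of the Hodge operator are a Lie algebra `𝔪`,
and `[𝔪, 𝔪]` acts trivially on `W`. But `𝔰𝔬(A)` is perfect for `n ≥ 3` (`Pool.Agent.X120.OR.Perf`).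
-/

set_option autoImplicit false

open Matrix
open Pool.Agent.X120.BM Pool.Agent.X120.OP
open Pool.Agent.X120.OR (OPeriods IsTop Generic count_generic so_perfect)
open Pool.Agent.X120.NF (IsPolarized)

namespace Pool.Agent.Results.MP_b23d8d_ag.PowersOfSurfacesAtPowers

section
variable {n r : ℕ}

/-- the tensors in `V^{⊗ r}` -/
abbrev Ten (n r : ℕ) : Type := Tens 1 (fun _ : Fin 1 => n) (fun _ : Fin r => (0 : Fin 1)) ℚ

/-- the action of the matrix `X` on `V^{⊗ r}` by derivations -/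
def der (X : Matrix (Fin n) (Fin n) ℚ) (c : Ten n r) : Ten n r :=
  act (fun _ : Fin r => (0 : Fin 1)) (((0 : Matrix (Fin 1) (Fin 1) ℚ), fun _ : Fin 1 => X) : Tup 1 (fun _ : Fin 1 => n) ℚ) c

/-- `W` is a Hodge substructure with complex multiplication of `V^{⊗ r}` for the Hodge operator `Φ`. The operator `Φ` is a sum `∑ z_j Z_j` with rational matrices `Z_j` and complex numbers `z_j` which are linearly independent over `ℚ`; `W_ℂ` is stable under `Φ` if and only if `W` is
stable under the `Z_j`, and the Lie algebra of the Mumford–Tate group of `W` is commutative if and only if the `Z_j` commute on `W`. The `Z_j` are among the images of `Φ` under `ℚ`-linear maps `φ : ℂ → ℚ` (applied to the entries). -/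
def IsCMSub (Φ : Matrix (Fin n) (Fin n) ℂ) (W : Submodule ℚ (Ten n r)) : Prop :=
  (∀ φ : ℂ →ₗ[ℚ] ℚ, ∀ c ∈ W, der (Φ.map φ) c ∈ W) ∧
    ∀ φ ψ : ℂ →ₗ[ℚ] ℚ, ∀ c ∈ W, der (Φ.map φ) (der (Φ.map ψ) c) = der (Φ.map ψ) (der (Φ.map φ) c)

/-- The statement for the fibre over `x = b^(-t)`. For all weights, symmetric forms `A` and Hodge structures of rank `n ≥ 3` with the first bilinear relation such that the upper part of the Hodge decomposition is given by the two period vectors: all Hodge substructures with complex multiplication of all tensor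
powers `V^{⊗ r}` are killed by `𝔰𝔬(A)`. -/
def InvariantCMSubs {G : GSystem} {n e : ℕ} (F : OPeriods G n e) (b t : ℕ) : Prop :=
  ∀ (w : ℕ) (A : Matrix (Fin n) (Fin n) ℚ) (H : ℕ → Submodule ℂ (Fin n → ℂ)), 3 ≤ n → Aᵀ = A → IsPolarized w A H → IsTop w H (F.vec b t) →
    ∀ Φ : Matrix (Fin n) (Fin n) ℂ, IsHodgeOperator w H Φ →
      ∀ (r : ℕ) (W : Submodule ℚ (Ten n r)), IsCMSub Φ W →
        ∀ X : Matrix (Fin n) (Fin n) ℚ, X * A + A * Xᵀ = 0 → ∀ c ∈ W, der X c = 0

theorem der_add (X Y : Matrix (Fin n) (Fin n) ℚ) (c : Ten n r) : der (X + Y) c = der X c + der Y c := by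
  unfold der
  rw [← act_add]
  congr 2
  refine Prod.ext ?_ rfl
  show (0 : Matrix (Fin 1) (Fin 1) ℚ) = 0 + 0
  rw [add_zero]

theorem der_smul (q : ℚ) (X : Matrix (Fin n) (Fin n) ℚ) (c : Ten n r) : der (q • X) c = q • der X c := by
  unfold der
  rw [← act_smul]
  congr 2
  refine Prod.ext ?_ rfl
  show (0 : Matrix (Fin 1) (Fin 1) ℚ) = q • 0
  rw [smul_zero]

theorem der_zero (c : Ten n r) : der 0 c = 0 := by
  have h1 := der_smul (0 : ℚ) (0 : Matrix (Fin n) (Fin n) ℚ) c
  rw [zero_smul, zero_smul] at h1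
  exact h1

theorem der_bracket (X Y : Matrix (Fin n) (Fin n) ℚ) (c : Ten n r) : der Y (der X c) - der X (der Y c) = der (X * Y - Y * X) c := by
  have h1 := LinearMap.congr_fun (act_bracket (ι := fun _ : Fin r => (0 : Fin 1)) (((0 : Matrix (Fin 1) (Fin 1) ℚ), fun _ : Fin 1 => X) : Tup 1 (fun _ : Fin 1 => n) ℚ)
    (((0 : Matrix (Fin 1) (Fin 1) ℚ), fun _ : Fin 1 => Y) : Tup 1 (fun _ : Fin 1 => n) ℚ)) c
  have h2 : bracket (((0 : Matrix (Fin 1) (Fin 1) ℚ), fun _ : Fin 1 => X) : Tup 1 (fun _ : Fin 1 => n) ℚ)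
      (((0 : Matrix (Fin 1) (Fin 1) ℚ), fun _ : Fin 1 => Y) : Tup 1 (fun _ : Fin 1 => n) ℚ) =
      (((0 : Matrix (Fin 1) (Fin 1) ℚ), fun _ : Fin 1 => X * Y - Y * X) : Tup 1 (fun _ : Fin 1 => n) ℚ) := by
    refine Prod.ext ?_ rfl
    show (0 : Matrix (Fin 1) (Fin 1) ℚ) * 0 - 0 * 0 = 0
    rw [Matrix.zero_mul, sub_self]
  rw [h2] at h1
  exact h1

theorem killed {G : GSystem} {e w : ℕ} {F : OPeriods G n e} {b t : ℕ} (hgen : Generic F b t) (hn : 3 ≤ n) {A : Matrix (Fin n) (Fin n) ℚ} {H : ℕ → Submodule ℂ (Fin n → ℂ)}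
    (hA : Aᵀ = A) (hH : IsPolarized w A H) (ht : IsTop w H (F.vec b t)) {Φ : Matrix (Fin n) (Fin n) ℂ} (hop : IsHodgeOperator w H Φ) {W : Submodule ℚ (Ten n r)}
    (hW : IsCMSub Φ W) {X : Matrix (Fin n) (Fin n) ℚ} (hX : X * A + A * Xᵀ = 0) : ∀ c ∈ W, der X c = 0 := by
  classical
  obtain ⟨hst, hcomm⟩ := hW
  let 𝔪 : Submodule ℚ (Matrix (Fin n) (Fin n) ℚ) :=
    { carrier := {X | ∃ φ : ℂ →ₗ[ℚ] ℚ, ∀ c ∈ W, der X c = der (Φ.map φ) c}
      add_mem' := by
        rintro X Y ⟨φ, hφ⟩ ⟨ψ, hψ⟩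
        refine ⟨φ + ψ, fun c hc => ?_⟩
        have h1 : Φ.map (φ + ψ) = Φ.map φ + Φ.map ψ := rfl
        rw [der_add, hφ c hc, hψ c hc, ← der_add, ← h1]
      zero_mem' := by
        refine ⟨0, fun c _ => ?_⟩
        have h1 : Φ.map (0 : ℂ →ₗ[ℚ] ℚ) = 0 := rfl
        rw [h1]
      smul_mem' := by
        rintro q X ⟨φ, hφ⟩
        refine ⟨q • φ, fun c hc => ?_⟩
        have h1 : Φ.map (q • φ) = q • Φ.map φ := rfl
        rw [der_smul, hφ c hc, ← der_smul, ← h1] }
  let 𝔫 : Submodule ℚ (Matrix (Fin n) (Fin n) ℚ) :=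
    { carrier := {X | ∀ c ∈ W, der X c = 0}
      add_mem' := fun {X Y} hX hY c hc => by
        rw [der_add, hX c hc, hY c hc, add_zero]
      zero_mem' := fun c _ => der_zero c
      smul_mem' := fun q {X} hX c hc => by
        rw [der_smul, hX c hc, smul_zero] }
  have hbr : ∀ X ∈ 𝔪, ∀ Y ∈ 𝔪, X * Y - Y * X ∈ 𝔫 := by
    rintro X ⟨φ, hφ⟩ Y ⟨ψ, hψ⟩ c hc
    rw [← der_bracket, hφ c hc, hψ c hc, hψ _ (hst φ c hc), hφ _ (hst ψ c hc), hcomm ψ φ c hc, sub_self]
  have hle : 𝔫 ≤ 𝔪 := by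
    intro X hX
    refine ⟨0, fun c hc => ?_⟩
    have h1 : Φ.map (0 : ℂ →ₗ[ℚ] ℚ) = 0 := rfl
    rw [h1, der_zero]
    exact hX c hc
  have h𝔪 : ∀ X : Matrix (Fin n) (Fin n) ℚ, X * A + A * Xᵀ = 0 → X ∈ 𝔪 := by
    refine hgen w A H hA hH ht Φ hop 𝔪 (fun X hX Y hY => hle (hbr X hX Y hY)) 0 ?_
    have h1 : Φ - ((0 : ℚ) : ℂ) • (1 : Matrix (Fin n) (Fin n) ℂ) = Φ := by
      rw [Rat.cast_zero, zero_smul, sub_zero]
    rw [h1]
    exact mem_of_phM fun φ => ⟨φ, fun c _ => rfl⟩
  have h2 : X ∈ 𝔫 := so_perfect hn hA hH.nondeg (fun Y Z hY hZ => hbr _ (h𝔪 Y hY) _ (h𝔪 Z hZ)) hX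
  exact h2

end

/-- **The theorem.** -/
theorem result (G : GSystem) (n e b : ℕ) (hb : 2 ≤ b) :
    ∃ K : ℝ, 0 ≤ K ∧ ∀ F : OPeriods G n e, ∀ N : ℕ, 2 ≤ N →
      (({t : ℕ | 1 ≤ t ∧ t ≤ N ∧ ¬ InvariantCMSubs F b t}.ncard : ℕ) : ℝ) ≤ K * Real.log N := by
  obtain ⟨K, hK, h⟩ := count_generic G n e b hb
  refine ⟨K, hK, fun F N hN => le_trans ?_ (h F N hN)⟩
  refine Nat.cast_le.2 (Set.ncard_le_ncard ?_ ((Set.finite_Iic N).subset fun t ht => ht.2.1))
  rintro t ⟨ht1, htN, hnot⟩
  refine ⟨ht1, htN, fun hgen => hnot ?_⟩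
  intro w A H hn hA hH ht Φ hop r W hW X hX
  exact killed hgen hn hA hH ht hop hW hX

end Pool.Agent.Results.MP_b23d8d_ag.PowersOfSurfacesAtPowers
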