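import Pool.Agent.X120.OR.Pow

/-!
# Hodge structures with complex multiplication in the cohomology of products of fibres over `b^(-t)` with a constant variety

Let `V_i`, `1 ≤ i ≤ k`, be variations of Hodge structure with `h^{w_i, 0} = 1` (of Calabi-Yau type) over the projective line without finitely many points, which come from families `X^(i)` over `ℚ`, with a
nondegenerate alternating form, such that the monodromy group is dense in a symplectic group, for example the middle cohomology of families of Calabi–Yau varieties of odd dimension, or of elliptic curves. The fibre over `x = 0` may be smooth or degenerate: we suppose that near `x = 0` the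
period matrix is `L_i(log (1/x)) P_i(x)`, where the entries of `P_i` are polynomials with any complex coefficients in a system of G-functions with rational coefficients which are solutions of a
differential system with a regular singularity with rational exponents at infinity, and the entries of `L_i(u)` are polynomials. Let `U` be a smooth projective variety over `ℚ̄` and `V_0` its cohomology (or a factor), with the Hodge operator `Φ_0` (the multiplication by `p` on `H^(p,q)`).

**Theorem.** Let `b_i ≥ 2` be integers. There is a constant `K`, which depends only on the G-functions, the ranks, the degrees `e` of the polynomials and the `b_i`, such that for all such `V_i` and `V_0` and all `N ≥ 2`: for all but at most `K N^(k-1) log N` of the `N^k` tuples `t`,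
`1 ≤ t_i ≤ N`, all Hodge substructures with complex multiplication of all tensor products `V_0 ⊗ V_(i_1) ⊗ ⋯ ⊗ V_(i_r)`, where `V_i` is the fibre over `b_i^(-t_i)`, `r` is arbitrary and the `i_j` may be equal, are killed by the symplectic Lie algebras `𝔰𝔭(V_i)`.

By the first fundamental theorem for the symplectic group (Weyl) the invariants in the tensor product of the `V_(i_j)` are spanned by the products of the forms (Tate classes). So a Hodge substructure `H` with complex multiplication is contained in `V_0 ⊗ ℚ(-l)^s`, where the `ℚ(-l)` are spanned by algebraic classes if the forms are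
the cup product on the middle cohomology: it is a sum of Tate twists of Hodge substructures of the cohomology of `U`. If the cohomology of the fibres `X^(i)_(t_i)` is the sum of `V_i` and of algebraic classes (for example hypersurfaces and complete intersections of odd dimension of Calabi–Yau type, their mirrors), then for all products `X` of powers of the
varieties `X^(i)_(t_i)` the Gross–Deligne conjecture (Q1) for the admissible triples `(H, F, ι)` in the cohomology of `X × U` is reduced to the Hodge substructures with complex multiplication of the cohomology of `U`; the periods are those of `U` multiplied by a power of `2πi`. For example, if `U` is a point then all admissible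
triples in the cohomology of `X` are sums of Tate structures, and for them Q1 is the reflection formula for the gamma function. It was not known for the fibres over given rational points that no Hodge substructure of the cohomology of the powers has complex multiplication, except for families of abelian varieties and related families;
for very general `t` this is well known.

Proof. The coordinates over `ℚ` of the Hodge operator act on a substructure with complex multiplication by commuting endomorphisms. The block diagonal matrices which act on it like one of these endomorphisms are a rational Lie algebra whose complexification contains the Hodge operator. By the counting theorem (`Pool.Agent.X120.BM`) it contains the symplectic Lie algebras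
for all but few `t`. These are perfect, so they kill the substructure.
-/

set_option autoImplicit false

open Matrix

open Pool.Agent.X120.BM Pool.Agent.X120.OR

namespace Pool.Agent.Results.MP_b23d8d_ag.ProductsWithFibresAtPowers

section
variable {n₀ k r : ℕ} {n : Fin k → ℕ}

/-- `W` is a Hodge substructure with complex multiplication of `V_0 ⊗ V_(ι 0) ⊗ ⋯ ⊗ V_(ι (r-1))` for the Hodge operator `Z = (Φ_0, Φ)`. The operator `Z` is a sum `∑ z_j Z_j` with rational `Z_j` and complex numbers `z_j` which are linearly independent over `ℚ`; `W_ℂ` is stable under `Z` if and only if `W` is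
stable under the `Z_j`, and the Lie algebra of the Mumford–Tate group of `W` is commutative if and only if the `Z_j` commute on `W`. The `Z_j` are among the images `phT φ Z` of `Z` under `ℚ`-linear maps `φ : ℂ → ℚ` (applied to the entries). -/
def IsCMSub {ι : Fin r → Fin k} (Z : Tup n₀ n ℂ) (W : Submodule ℚ (Tens n₀ n ι ℚ)) : Prop :=
  (∀ φ : ℂ →ₗ[ℚ] ℚ, ∀ c ∈ W, act ι (phT φ Z) c ∈ W) ∧
    ∀ φ ψ : ℂ →ₗ[ℚ] ℚ, ∀ c ∈ W, act ι (phT φ Z) (act ι (phT ψ Z) c) = act ι (phT ψ Z) (act ι (phT φ Z) c)

/-- The statement for the fibres over the `b_i^(-t_i)`. For all Hodge structures `H_i` with alternating forms `A_i` on the fibres with the part of type `(w_i, 0)` given by the period vector: all Hodge substructures with complex multiplication of all tensor products `V_0 ⊗ V_(ι 0) ⊗ ⋯ ⊗ V_(ι (r-1))`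
are killed by `𝔰𝔭(A_1) × ⋯ × 𝔰𝔭(A_k)`. -/
def InvariantCMSubs {e : ℕ} {G : Fin k → GSystem} (F : ∀ i, Periods (G i) (n i) e) (Φ₀ : Matrix (Fin n₀) (Fin n₀) ℂ) (w b t : Fin k → ℕ) : Prop :=
  ∀ (A : ∀ i, Matrix (Fin (n i)) (Fin (n i)) ℚ) (H : ∀ i, ℕ → Submodule ℂ (Fin (n i) → ℂ)), IsFibre F w b t A H →
    ∀ Φ : ∀ i, Matrix (Fin (n i)) (Fin (n i)) ℂ, (∀ i, IsHodgeOperator (w i) (H i) (Φ i)) →
      ∀ (r : ℕ) (ι : Fin r → Fin k) (W : Submodule ℚ (Tens n₀ n ι ℚ)), IsCMSub ((Φ₀, Φ) : Tup n₀ n ℂ) W →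
        ∀ X : ∀ i, Matrix (Fin (n i)) (Fin (n i)) ℚ, (∀ i, X i * A i + A i * (X i)ᵀ = 0) → ∀ c ∈ W, act ι ((0, X) : Tup n₀ n ℚ) c = 0

theorem phT_add (φ ψ : ℂ →ₗ[ℚ] ℚ) (Z : Tup n₀ n ℂ) : phT (φ + ψ) Z = phT φ Z + phT ψ Z := rfl

theorem phT_smul (q : ℚ) (φ : ℂ →ₗ[ℚ] ℚ) (Z : Tup n₀ n ℂ) : phT (q • φ) Z = q • phT φ Z := rfl

theorem phT_zero (Z : Tup n₀ n ℂ) : phT (0 : ℂ →ₗ[ℚ] ℚ) Z = 0 := rfl

theorem act_zero {ι : Fin r → Fin k} (c : Tens n₀ n ι ℚ) : act ι (0 : Tup n₀ n ℚ) c = 0 := by
  have h1 := act_smul (0 : ℚ) (0 : Tup n₀ n ℚ) c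
  rw [zero_smul, zero_smul] at h1
  exact h1

theorem killed {Φ₀ : Matrix (Fin n₀) (Fin n₀) ℂ} {w : Fin k → ℕ} {A : ∀ i, Matrix (Fin (n i)) (Fin (n i)) ℚ} {H : ∀ i, ℕ → Submodule ℂ (Fin (n i) → ℂ)}
    (hH : ∀ i, IsHodge (w i) (A i) (H i)) (hgen : RelativelyGeneric Φ₀ w A H) {Φ : ∀ i, Matrix (Fin (n i)) (Fin (n i)) ℂ}
    (hop : ∀ i, IsHodgeOperator (w i) (H i) (Φ i)) {ι : Fin r → Fin k} {W : Submodule ℚ (Tens n₀ n ι ℚ)} (hW : IsCMSub ((Φ₀, Φ) : Tup n₀ n ℂ) W)
    {X : ∀ i, Matrix (Fin (n i)) (Fin (n i)) ℚ} (hX : ∀ i, X i * A i + A i * (X i)ᵀ = 0) : ∀ c ∈ W, act ι ((0, X) : Tup n₀ n ℚ) c = 0 := by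
  classical
  obtain ⟨hst, hcomm⟩ := hW
  -- the matrices which act like the coordinates of the Hodge operator
  let 𝔪 : Submodule ℚ (Tup n₀ n ℚ) :=
    { carrier := {X | ∃ φ : ℂ →ₗ[ℚ] ℚ, ∀ c ∈ W, act ι X c = act ι (phT φ ((Φ₀, Φ) : Tup n₀ n ℂ)) c}
      add_mem' := by
        rintro X Y ⟨φ, hφ⟩ ⟨ψ, hψ⟩
        exact ⟨φ + ψ, fun c hc => by rw [act_add, hφ c hc, hψ c hc, phT_add, act_add]⟩
      zero_mem' := ⟨0, fun c _ => by rw [phT_zero]⟩
      smul_mem' := by
        rintro q X ⟨φ, hφ⟩
        exact ⟨q • φ, fun c hc => by rw [act_smul, hφ c hc, phT_smul, act_smul]⟩ }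
  let 𝔫 : Submodule ℚ (Tup n₀ n ℚ) :=
    { carrier := {X | ∀ c ∈ W, act ι X c = 0}
      add_mem' := fun {X Y} hX hY c hc => by
        rw [act_add, hX c hc, hY c hc, add_zero]
      zero_mem' := fun c _ => act_zero c
      smul_mem' := fun q {X} hX c hc => by
        rw [act_smul, hX c hc, smul_zero] }
  have hbr : ∀ X ∈ 𝔪, ∀ Y ∈ 𝔪, bracket X Y ∈ 𝔫 := by
    rintro X ⟨φ, hφ⟩ Y ⟨ψ, hψ⟩ c hc
    rw [← act_bracket]
    show act ι Y (act ι X c) - act ι X (act ι Y c) = 0
    rw [hφ c hc, hψ c hc, hψ _ (hst φ c hc), hφ _ (hst ψ c hc), hcomm ψ φ c hc, sub_self]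
  have hle : 𝔫 ≤ 𝔪 := fun X hX => ⟨0, fun c hc => by rw [phT_zero, act_zero]; exact hX c hc⟩
  have h𝔪 : ∀ X : ∀ i, Matrix (Fin (n i)) (Fin (n i)) ℚ, (∀ i, X i * A i + A i * (X i)ᵀ = 0) → ((0, X) : Tup n₀ n ℚ) ∈ 𝔪 := by
    refine hgen 𝔪 (fun X hX Y hY => hle (hbr X hX Y hY)) ?_
    intro Φ' hop'
    have h1 : Φ' = Φ := funext fun i => op_unique (hH i) (hop i) (hop' i)
    rw [h1]
    exact mem_of_phT fun φ => ⟨φ, fun c _ => rfl⟩
  -- the factors
  have h1 : ∀ i : Fin k, ∀ Y : Matrix (Fin (n i)) (Fin (n i)) ℚ, Y * A i + A i * Yᵀ = 0 → ((0, Pi.single i Y) : Tup n₀ n ℚ) ∈ 𝔫 := by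
    intro i
    have hsing : ∀ Y : Matrix (Fin (n i)) (Fin (n i)) ℚ, Y * A i + A i * Yᵀ = 0 → ((0, Pi.single i Y) : Tup n₀ n ℚ) ∈ 𝔪 := by
      intro Y hY
      refine h𝔪 _ fun j => ?_
      by_cases hj : j = i
      · subst hj
        rw [Pi.single_eq_same]
        exact hY
      · rw [Pi.single_eq_of_ne hj, Matrix.zero_mul, Matrix.transpose_zero, Matrix.mul_zero, add_zero]
    intro Y hY
    have h2 : Y ∈ 𝔫.comap ((LinearMap.inr ℚ (Matrix (Fin n₀) (Fin n₀) ℚ) _).comp (LinearMap.single ℚ (fun i => Matrix (Fin (n i)) (Fin (n i)) ℚ) i)) := by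
      refine sp_span (hH i).alt (hH i).nondeg (fun u => ?_) hY
      obtain ⟨Y₁, Y₂, hY₁, hY₂, hY₃⟩ := rank_one_bracket (hH i).alt (hH i).nondeg u
      show ((0, Pi.single i (A i * Matrix.vecMulVec u u)) : Tup n₀ n ℚ) ∈ 𝔫
      have h3 := hbr _ (hsing Y₁ hY₁) _ (hsing Y₂ hY₂)
      have h4 : bracket ((0, Pi.single i Y₁) : Tup n₀ n ℚ) ((0, Pi.single i Y₂) : Tup n₀ n ℚ) = ((0, Pi.single i (A i * Matrix.vecMulVec u u)) : Tup n₀ n ℚ) := by
        refine Prod.ext ?_ ?_
        · show (0 : Matrix (Fin n₀) (Fin n₀) ℚ) * 0 - 0 * 0 = 0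
          rw [Matrix.zero_mul, sub_self]
        · funext j
          show (Pi.single i Y₁ : ∀ i, Matrix (Fin (n i)) (Fin (n i)) ℚ) j * (Pi.single i Y₂ : ∀ i, Matrix (Fin (n i)) (Fin (n i)) ℚ) j -
            (Pi.single i Y₂ : ∀ i, Matrix (Fin (n i)) (Fin (n i)) ℚ) j * (Pi.single i Y₁ : ∀ i, Matrix (Fin (n i)) (Fin (n i)) ℚ) j =
              (Pi.single i (A i * Matrix.vecMulVec u u) : ∀ i, Matrix (Fin (n i)) (Fin (n i)) ℚ) j
          by_cases hj : j = i
          · subst hj
            rw [Pi.single_eq_same, Pi.single_eq_same, Pi.single_eq_same, hY₃]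
          · rw [Pi.single_eq_of_ne hj, Pi.single_eq_of_ne hj, Pi.single_eq_of_ne hj, Matrix.zero_mul, sub_self]
      rw [h4] at h3
      exact h3
    exact h2
  have h2 : ((0, X) : Tup n₀ n ℚ) = ∑ i, ((0, Pi.single i (X i)) : Tup n₀ n ℚ) := by
    refine Prod.ext ?_ ?_
    · rw [Prod.fst_sum]
      exact Finset.sum_const_zero.symm
    · rw [Prod.snd_sum]
      exact (Finset.univ_sum_single X).symm
  rw [h2]
  exact 𝔫.sum_mem fun i _ => h1 i (X i) (hX i)

end

/-- **The theorem.** -/
theorem result {k : ℕ} (n₀ e : ℕ) (G : Fin k → GSystem) (n : Fin k → ℕ) (b : Fin k → ℕ) (hb : ∀ i, 2 ≤ b i) :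
    ∃ K : ℝ, 0 ≤ K ∧ ∀ Φ₀ : Matrix (Fin n₀) (Fin n₀) ℂ, IsSplitOperator Φ₀ →
      ∀ (F : ∀ i, Periods (G i) (n i) e) (w : Fin k → ℕ) (N : ℕ), 2 ≤ N →
        (({t : Fin k → ℕ | (∀ i, 1 ≤ t i ∧ t i ≤ N) ∧ ¬ InvariantCMSubs F Φ₀ w b t}.ncard : ℕ) : ℝ) * N ≤ K * (N : ℝ) ^ k * Real.log N := by
  obtain ⟨K, hK, h⟩ := count_rel n₀ e G n b hb
  refine ⟨K, hK, fun Φ₀ hΦ₀ F w N hN => h Φ₀ hΦ₀ F w N hN _ ?_⟩
  rintro t ⟨ht, hnot⟩
  refine ⟨ht, fun hgen => hnot ?_⟩
  intro A H hF Φ hop r ι W hW X hX
  exact killed (fun i => (hF i).2.1) (hgen A H hF) hop hW hX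

end Pool.Agent.Results.MP_b23d8d_ag.ProductsWithFibresAtPowers
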